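import Pool.Agent.Lib_MP_94fe03_pr.Final

set_option autoImplicit false

/-! MP_94fe03_pr, Q1: negative answer for every even threshold `2l+2 ≥ 4`. For every `f > 0` such that
`p_n(b) = pc l n + b * f n` lies in the unit interval for all large `n` (for each real `b`), if the final
densities converge for every `b` then the limit is identically one or a step function with one
step, from zero to one. -/

namespace Pool.Agent.Results.MP_94fe03_pr.CriticalWindow

open Filter Topology Pool.Agent.BP

/-- Here `dens l n p` is the probability that a fixed vertex of the product of the square lattice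
with the Hamming square is finally occupied, threshold `2l+2`, initial density `p`, and
`pc l n = (2 (l-1)!)^(1/l) (log n)^(1/l) / n^(1+1/l)`. -/
theorem result (l : ℕ) (hl : 1 ≤ l) (f : ℕ → ℝ) (hf : ∀ n, 0 < f n)
    (p : ℝ → ℕ → unitInterval)
    (hp : ∀ b : ℝ, ∀ᶠ n : ℕ in atTop, (p b n : ℝ) = pc l n + b * f n)
    (Φ : ℝ → ℝ) (hΦ : ∀ b : ℝ, Tendsto (fun n => dens l n (p b n)) atTop (𝓝 (Φ b))) :
    (∀ b : ℝ, Φ b = 1) ∨
      ∃ b0 : ℝ, b0 ≤ 0 ∧ (∀ b : ℝ, b < b0 → Φ b = 0) ∧ ∀ b : ℝ, b0 < b → Φ b = 1 := by
  refine dichotomy l hl f hf ?_ Φ ?_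
  · intro b
    filter_upwards [hp b] with n hn
    rw [← hn]
    exact (p b n).2
  · intro b
    refine (hΦ b).congr' ?_
    filter_upwards [hp b] with n hn
    have : pnb l f b n = p b n := by
      unfold pnb
      rw [← hn]
      exact Set.projIcc_val zero_le_one (p b n)
    rw [this]

end Pool.Agent.Results.MP_94fe03_pr.CriticalWindow
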