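import Pool.Agent.Lib_MP_94fe03_pr.Final
import Pool.Agent.Lib_MP_94fe03_pr.Mono

set_option autoImplicit false

/-! MP_94fe03_pr: location of the phase transition up to a relative error of order `1 / log n`, for
every even threshold `2l+2`. -/

namespace Pool.Agent.Results.MP_94fe03_pr.SharpThreshold

open Filter Topology Pool.Agent.BP Pool.Agent.BP.Final

/-- the correction factor `1 - (s loglog n + x)/(2 log n)` with `s = 3` for `l = 1` and
`s = 2 + 2/l` for `l ≥ 2` -/
noncomputable def corr (l n : ℕ) (x : ℝ) : ℝ :=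
  1 - ((if l = 1 then 3 else 2 + 2 / (l : ℝ)) * Real.log (Real.log n) + x) / (2 * Real.log n)

theorem corr_tendsto (l : ℕ) (x : ℝ) : Tendsto (fun n : ℕ => corr l n x) atTop (𝓝 1) := by
  have hlog : Tendsto (fun n : ℕ => Real.log n) atTop atTop :=
    Real.tendsto_log_atTop.comp tendsto_natCast_atTop_atTop
  have h1 : Tendsto (fun n : ℕ => Real.log (Real.log n) / Real.log n) atTop (𝓝 0) := by
    have := Real.isLittleO_log_id_atTop.tendsto_div_nhds_zero
    exact this.comp hlog
  have h2 : Tendsto (fun n : ℕ => x / Real.log n) atTop (𝓝 0) := tendsto_const_nhds.div_atTop hlog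
  have h3 := ((h1.const_mul ((if l = 1 then 3 else 2 + 2 / (l : ℝ)) / 2)).add
    (h2.const_mul (1 / 2))).const_sub 1
  simp only [mul_zero, add_zero, sub_zero] at h3
  refine h3.congr' ?_
  filter_upwards [hlog.eventually_gt_atTop 0] with n hn
  unfold corr
  field_simp

/-- error term -/
theorem err_tendsto (l : ℕ) (x : ℝ) :
    Tendsto (fun n : ℕ => (1 - corr l n x) ^ 2 * Real.log n) atTop (𝓝 0) := by
  have hlog : Tendsto (fun n : ℕ => Real.log n) atTop atTop :=
    Real.tendsto_log_atTop.comp tendsto_natCast_atTop_atTop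
  have h1 : Tendsto (fun n : ℕ => Real.log (Real.log n) ^ 2 / Real.log n) atTop (𝓝 0) := by
    have h0 : Tendsto (fun y : ℝ => Real.log y ^ 2 / y) atTop (𝓝 0) := by
      have := (Real.isLittleO_pow_log_id_atTop (n := 2)).tendsto_div_nhds_zero
      exact this
    exact h0.comp hlog
  have h2 : Tendsto (fun n : ℕ => Real.log (Real.log n) / Real.log n) atTop (𝓝 0) := by
    have := Real.isLittleO_log_id_atTop.tendsto_div_nhds_zero
    exact this.comp hlog
  have h3 : Tendsto (fun n : ℕ => (1 : ℝ) / Real.log n) atTop (𝓝 0) :=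
    tendsto_const_nhds.div_atTop hlog
  set s : ℝ := if l = 1 then 3 else 2 + 2 / (l : ℝ) with hs
  have h4 := ((h1.const_mul (s ^ 2 / 4)).add (h2.const_mul (s * x / 2))).add
    (h3.const_mul (x ^ 2 / 4))
  simp only [mul_zero, add_zero] at h4
  refine h4.congr' ?_
  filter_upwards [hlog.eventually_gt_atTop 0] with n hn
  unfold corr
  rw [← hs]
  field_simp
  ring

theorem RR_upper (l : ℕ) (hl : 1 ≤ l) (x : ℝ) : ∀ᶠ n : ℕ in atTop,
    RR l n (pc l n * corr l n x) ≤ Real.log 4 + x := by
  have hc := corr_tendsto l x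
  have e1 := hc.eventually (lt_mem_nhds (show (1 / 2 : ℝ) < 1 by norm_num))
  have e2 := hc.eventually (gt_mem_nhds (show (1 : ℝ) < 3 / 2 by norm_num))
  have hlog : Tendsto (fun n : ℕ => Real.log n) atTop atTop :=
    Real.tendsto_log_atTop.comp tendsto_natCast_atTop_atTop
  filter_upwards [e1, e2, eventually_ge_atTop 3, hlog.eventually_ge_atTop 1] with n h1 h2 h3 h4
  set c := corr l n x with hcdef
  have hlr : (0 : ℝ) < l := by exact_mod_cast (by omega : 0 < l)
  have hL : 0 < Real.log n := by linarith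
  have hLL : 0 ≤ Real.log (Real.log n) := Real.log_nonneg h4
  rw [RR_eq hl h3 (by linarith)]
  have hb : 1 + (l : ℝ) * (c - 1) ≤ c ^ l := by
    have := one_add_mul_le_pow (a := c - 1) (by linarith) l
    simpa using this
  have h5 : 2 / (l : ℝ) * Real.log n * (1 + (l : ℝ) * (c - 1)) ≤ 2 / l * Real.log n * c ^ l :=
    mul_le_mul_of_nonneg_left hb (by positivity)
  have h6 : 2 / (l : ℝ) * Real.log n * (1 + (l : ℝ) * (c - 1)) =
      2 / l * Real.log n + 2 * Real.log n * (c - 1) := by
    field_simp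
    try ring
  have h7 : 2 * Real.log n * (c - 1) =
      -((if l = 1 then 3 else 2 + 2 / (l : ℝ)) * Real.log (Real.log n) + x) := by
    rw [hcdef]
    unfold corr
    field_simp
    try ring
  by_cases h : l = 1
  · have hg := gg_le (l := l) hl h3 h1.le h2.le
    rw [if_pos h] at h7
    have : (2 + 2 / (l : ℝ)) = 4 := by rw [h]; norm_num
    rw [this]
    linarith
  · have hg : gg l n (pc l n * c) ≤ Real.log 4 := by
      unfold gg
      simp only [if_neg h, add_zero, Real.log_one]
      exact Real.log_nonneg (by norm_num)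
    rw [if_neg h] at h7
    linarith

theorem pow_upper {l : ℕ} {y : ℝ} (h0 : 0 ≤ y) (h1 : y ≤ 1) :
    (1 - y) ^ l ≤ 1 - l * y + (l * y) ^ 2 := by
  induction l with
  | zero => simp
  | succ l ih =>
    have hl : (0 : ℝ) ≤ l := Nat.cast_nonneg l
    rw [pow_succ]
    push_cast
    have h2 : (1 - y) ^ l * (1 - y) ≤ (1 - l * y + (l * y) ^ 2) * (1 - y) :=
      mul_le_mul_of_nonneg_right ih (by linarith)
    refine h2.trans ?_
    have h3 : 0 ≤ (l : ℝ) * y := mul_nonneg hl h0
    have h4 : 0 ≤ (l : ℝ) * y * y := mul_nonneg h3 h0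
    have h5 : 0 ≤ (l : ℝ) ^ 2 * y ^ 3 := by positivity
    have h6 : 0 ≤ y ^ 2 := by positivity
    nlinarith

theorem RR_lower (l : ℕ) (hl : 1 ≤ l) (x : ℝ) : ∀ᶠ n : ℕ in atTop,
    x - 1 ≤ RR l n (pc l n * corr l n x) := by
  have hc := corr_tendsto l x
  have e1 := hc.eventually (lt_mem_nhds (show (1 / 2 : ℝ) < 1 by norm_num))
  have hlr : (0 : ℝ) < l := by exact_mod_cast (by omega : 0 < l)
  have e3 := (err_tendsto l x).eventually (gt_mem_nhds (show (0 : ℝ) < 1 / (2 * l) by positivity))
  have hlog : Tendsto (fun n : ℕ => Real.log n) atTop atTop :=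
    Real.tendsto_log_atTop.comp tendsto_natCast_atTop_atTop
  have e4 : ∀ᶠ n : ℕ in atTop, 0 ≤ 1 - corr l n x := by
    have h1 : Tendsto (fun n : ℕ => (if l = 1 then 3 else 2 + 2 / (l : ℝ)) *
        Real.log (Real.log n) + x) atTop atTop := by
      refine tendsto_atTop_add_const_right _ _ ?_
      refine tendsto_LL.const_mul_atTop ?_
      split_ifs <;> positivity
    filter_upwards [h1.eventually_ge_atTop 0, hlog.eventually_gt_atTop 0] with n h2 h3
    unfold corr
    rw [sub_sub_cancel]
    positivity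
  filter_upwards [e1, e3, e4, eventually_ge_atTop 3, hlog.eventually_ge_atTop 1] with
    n h1 h2 h2' h3 h4
  set c := corr l n x with hcdef
  have hL : 0 < Real.log n := by linarith
  have hLL : 0 ≤ Real.log (Real.log n) := Real.log_nonneg h4
  rw [RR_eq hl h3 (by linarith)]
  have hb : c ^ l ≤ 1 - l * (1 - c) + (l * (1 - c)) ^ 2 := by
    have := pow_upper (l := l) h2' (by linarith : 1 - c ≤ 1)
    rwa [sub_sub_cancel] at this
  have h5 : 2 / (l : ℝ) * Real.log n * c ^ l ≤
      2 / l * Real.log n * (1 - l * (1 - c) + (l * (1 - c)) ^ 2) :=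
    mul_le_mul_of_nonneg_left hb (by positivity)
  have h6 : 2 / (l : ℝ) * Real.log n * (1 - l * (1 - c) + (l * (1 - c)) ^ 2) =
      2 / l * Real.log n - 2 * Real.log n * (1 - c) + 2 * l * ((1 - c) ^ 2 * Real.log n) := by
    field_simp
    try ring
  have h8 : 2 * l * ((1 - c) ^ 2 * Real.log n) ≤ 1 := by
    rw [lt_div_iff₀ (by positivity)] at h2
    linarith
  have h7 : 2 * Real.log n * (1 - c) =
      ((if l = 1 then 3 else 2 + 2 / (l : ℝ)) * Real.log (Real.log n) + x) := by
    rw [hcdef]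
    unfold corr
    field_simp
    try ring
  by_cases h : l = 1
  · have hg : Real.log (Real.log n) ≤ gg l n (pc l n * c) := by
      unfold gg
      rw [if_pos h, lam_pc hl h3]
      refine Real.log_le_log (by linarith) ?_
      rw [h]
      push_cast
      nlinarith
    rw [if_pos h] at h7
    have : (2 + 2 / (l : ℝ)) = 4 := by rw [h]; norm_num
    rw [this]
    linarith
  · have hg : 0 ≤ gg l n (pc l n * c) := by
      unfold gg
      simp [if_neg h]
    rw [if_neg h] at h7
    linarith

/-- For every `ε > 0` there is `X` such that for all large `n` the final density is at least `1 - ε`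
for all `p ≥ p_c (1 - (s loglog n - X)/(2 log n))` and at most `ε` for all
`p ≤ p_c (1 - (s loglog n + X)/(2 log n))`. -/
theorem result (l : ℕ) (hl : 1 ≤ l) (ε : ℝ) (hε : 0 < ε) : ∃ X : ℝ, ∀ᶠ n : ℕ in atTop,
    ∀ p : unitInterval, (pc l n * corr l n (-X) ≤ p → 1 - ε ≤ dens l n p) ∧
      ((p : ℝ) ≤ pc l n * corr l n X → dens l n p ≤ ε) := by
  obtain ⟨δ, hδ, hup⟩ := up_dens l hl ε hε
  obtain ⟨Λ, hΛ, hlow⟩ := low_dens l hl ε hε
  set X : ℝ := max (Real.log 4 - Real.log δ) (1 + Real.log Λ) with hX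
  refine ⟨X, ?_⟩
  have ev : ∀ x : ℝ, ∀ᶠ n : ℕ in atTop, (1 / 2 : ℝ) < corr l n x ∧ corr l n x < 3 / 2 := fun x =>
    ((corr_tendsto l x).eventually (lt_mem_nhds (by norm_num))).and
      ((corr_tendsto l x).eventually (gt_mem_nhds (by norm_num)))
  have hpc := (br_pc_tendsto hl).eventually_lt_const (show (0 : ℝ) < 1 / 2 by norm_num)
  filter_upwards [hup, hlow, ev (-X), ev X, hpc, eventually_ge_atTop 3, RR_upper l hl (-X),
    RR_lower l hl X] with n h1 h2 h3 h4 h5 h6 h7 h8 p
  have hp0 := pc_pos (l := l) h6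
  have mem : ∀ x : ℝ, (1 / 2 : ℝ) < corr l n x ∧ corr l n x < 3 / 2 →
      pc l n * corr l n x ∈ Set.Icc (0 : ℝ) 1 := by
    intro x hx
    constructor
    · have : 0 < corr l n x := by linarith [hx.1]
      positivity
    · nlinarith [hx.2]
  constructor
  · intro hp
    let q : unitInterval := ⟨pc l n * corr l n (-X), mem _ h3⟩
    have hq : q ≤ p := hp
    refine le_trans ?_ (dens_mono l n hq)
    refine h1 q ?_ ?_ ?_
    · change pc l n / 2 ≤ pc l n * corr l n (-X)
      nlinarith [h3.1]
    · change pc l n * corr l n (-X) ≤ 2 * pc l n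
      nlinarith [h3.2]
    · change qh l n (pc l n * corr l n (-X)) ≤ δ * ph l n ^ 2
      rw [qh_le_iff hl h6 (by linarith [h3.1]) hδ]
      have : Real.log 4 - Real.log δ ≤ X := le_max_left _ _
      linarith
  · intro hp
    let q : unitInterval := ⟨pc l n * corr l n X, mem _ h4⟩
    have hq : p ≤ q := hp
    refine le_trans (dens_mono l n hq) ?_
    refine h2 q ?_ ?_ ?_
    · change pc l n / 2 ≤ pc l n * corr l n X
      nlinarith [h4.1]
    · change pc l n * corr l n X ≤ 2 * pc l n
      nlinarith [h4.2]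
    · change Λ * ph l n ^ 2 ≤ qh l n (pc l n * corr l n X)
      rw [le_qh_iff hl h6 (by linarith [h4.1]) hΛ]
      have : 1 + Real.log Λ ≤ X := le_max_right _ _
      linarith

end Pool.Agent.Results.MP_94fe03_pr.SharpThreshold
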